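import Pool.Agent.H439.TA.Mean

/-!
# The large primes, in the `t`-aspect
-/

set_option autoImplicit false

namespace Pool.Agent.H439.TA

open Finset Complex ComplexConjugate Filter Topology MeasureTheory Pool.Agent.H439.LS
  Pool.Agent.H439.SP Pool.Agent.H439.LL

/-- the uniform distribution on the interval -/
noncomputable def tau (U H : ℝ) : Measure ℝ :=
  (ENNReal.ofReal H)⁻¹ • volume.restrict (Set.Icc U (U + H))

lemma prob_tau (U : ℝ) {H : ℝ} (hH : 0 < H) : IsProbabilityMeasure (tau U H) := by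
  constructor
  unfold tau
  rw [Measure.smul_apply, Measure.restrict_apply_univ, Real.volume_Icc, smul_eq_mul,
    show U + H - U = H by ring]
  exact ENNReal.inv_mul_cancel (by simpa using hH) ENNReal.ofReal_ne_top

lemma tau_real (U : ℝ) {H : ℝ} (hH : 0 < H) (S : Set ℝ) :
    (tau U H).real S = H⁻¹ * volume.real (S ∩ Set.Icc U (U + H)) := by
  unfold tau Measure.real
  rw [Measure.smul_apply, Measure.restrict_apply' measurableSet_Icc, smul_eq_mul,
    ENNReal.toReal_mul, ENNReal.toReal_inv, ENNReal.toReal_ofReal hH.le]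

lemma integral_tau (U : ℝ) {H : ℝ} (hH : 0 < H) {E : Type*} [NormedAddCommGroup E]
    [NormedSpace ℝ E] (f : ℝ → E) :
    ∫ t, f t ∂(tau U H) = H⁻¹ • ∫ t in U..(U + H), f t := by
  unfold tau
  rw [integral_smul_measure, integral_Icc_eq_integral_Ioc,
    ← intervalIntegral.integral_of_le (by linarith), ENNReal.toReal_inv,
    ENNReal.toReal_ofReal hH.le]

/-- the measure of a set without many well-spaced points -/
theorem meas_le {B : Set ℝ} {U H : ℝ} (hB : B ⊆ Set.Icc U (U + H)) {J₀ : ℝ}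
    (h : ∀ (J : ℕ) (t : Fin J → ℝ), (∀ j, t j ∈ B) → (∀ j k, j ≠ k → 1 ≤ |t j - t k|) →
      (J : ℝ) ≤ J₀) : volume.real B ≤ 2 * J₀ := by
  classical
  set hit : Finset ℕ := (range (⌊H⌋₊ + 1)).filter fun m => ∃ t ∈ B, U + m ≤ t ∧ t < U + m + 1
    with hhit
  have hcov : B ⊆ ⋃ m ∈ hit, Set.Icc (U + m) (U + m + 1) := by
    intro t ht
    have h1 := hB ht
    have h0 : 0 ≤ t - U := by linarith [h1.1]
    have h2 : ⌊t - U⌋₊ ≤ ⌊H⌋₊ := Nat.floor_mono (by linarith [h1.2])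
    have h3 := Nat.floor_le h0
    have h4 := Nat.lt_floor_add_one (t - U)
    simp only [Set.mem_iUnion, exists_prop]
    refine ⟨⌊t - U⌋₊, ?_, ⟨by linarith, by linarith⟩⟩
    rw [hhit, mem_filter, mem_range]
    exact ⟨by omega, t, ht, by linarith, by linarith⟩
  have hvol : volume.real B ≤ hit.card := by
    have h1 : volume (⋃ m ∈ hit, Set.Icc (U + m) (U + m + 1)) ≤ ∑ m ∈ hit, volume (Set.Icc (U + (m : ℝ)) (U + m + 1)) :=
      measure_biUnion_finset_le _ _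
    have h2 : ∑ m ∈ hit, volume (Set.Icc (U + (m : ℝ)) (U + m + 1)) = hit.card := by
      have : ∀ m ∈ hit, volume (Set.Icc (U + (m : ℝ)) (U + m + 1)) = 1 := by
        intro m _
        rw [Real.volume_Icc, show U + (m : ℝ) + 1 - (U + m) = 1 by ring, ENNReal.ofReal_one]
      rw [sum_congr rfl this, sum_const, nsmul_eq_mul, mul_one]
    have h3 : volume B ≤ (hit.card : ENNReal) := (measure_mono hcov).trans (h1.trans h2.le)
    have h4 := ENNReal.toReal_mono (ENNReal.natCast_ne_top _) h3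
    simpa [Measure.real] using h4
  have hpt : ∀ m ∈ hit, ∃ t ∈ B, U + m ≤ t ∧ t < U + m + 1 := fun m hm => (mem_filter.1 hm).2
  choose! T hT using hpt
  have key : ∀ R : Finset ℕ, R ⊆ hit → (∀ m ∈ R, ∀ n ∈ R, m < n → m + 2 ≤ n) →
      (R.card : ℝ) ≤ J₀ := by
    intro R hR hsep
    set e := R.equivFin with he
    have hmem : ∀ j : Fin R.card, ((e.symm j : R) : ℕ) ∈ hit := fun j => hR (e.symm j).2
    apply h R.card (fun j => T (e.symm j : R)) (fun j => (hT _ (hmem j)).1)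
    have hlt : ∀ m ∈ R, ∀ n ∈ R, m < n → 1 ≤ T n - T m := by
      intro m hm n hn hmn
      have h1 := (hT m (hR hm)).2.2
      have h2 := (hT n (hR hn)).2.1
      have h3 : (m : ℝ) + 2 ≤ n := by exact_mod_cast hsep m hm n hn hmn
      linarith
    intro j k hjk
    have hne : ((e.symm j : R) : ℕ) ≠ ((e.symm k : R) : ℕ) := by
      intro h0
      exact hjk (e.symm.injective (Subtype.ext h0))
    rcases lt_or_gt_of_ne hne with h1 | h1
    · rw [abs_sub_comm]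
      exact (hlt _ (e.symm j).2 _ (e.symm k).2 h1).trans (le_abs_self _)
    · exact (hlt _ (e.symm k).2 _ (e.symm j).2 h1).trans (le_abs_self _)
  have h1 := key (hit.filter Even) (filter_subset _ _) (by
    intro m hm n hn hmn
    have h1 := (mem_filter.1 hm).2
    have h2 := (mem_filter.1 hn).2
    rcases h1 with ⟨a, rfl⟩
    rcases h2 with ⟨b, rfl⟩
    omega)
  have h2 := key (hit.filter fun m => ¬ Even m) (filter_subset _ _) (by
    intro m hm n hn hmn
    have h1 := (mem_filter.1 hm).2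
    have h2 := (mem_filter.1 hn).2
    rw [Nat.not_even_iff_odd] at h1 h2
    rcases h1 with ⟨a, rfl⟩
    rcases h2 with ⟨b, rfl⟩
    omega)
  have h3 : (hit.card : ℝ) = (hit.filter Even).card + (hit.filter fun m => ¬ Even m).card := by
    rw [← Nat.cast_add, card_filter_add_card_filter_not]
  linarith

lemma pm_ph (t : ℝ) : PM (ph (-t)) := by
  constructor
  · intro p hp k
    induction k with
    | zero => simp [ph]
    | succ k ih => rw [pow_succ, ph_mul, ih, pow_succ]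
  · intro p hp
    rw [norm_ph _ hp.pos]

lemma PG_ph (a : ℕ → ℂ) (t ε : ℝ) :
    PG a (ph (-t)) (1 + (ε : ℂ)) =
      LS.PS a (1 : DirichletCharacter ℂ 1) (1 + (ε : ℂ) + (t : ℂ) * I) := by
  unfold PG LS.PS
  apply tsum_congr
  intro p
  rw [cpow_split p.2.pos]
  have h1 : ((p : ℕ) : ℂ) ^ (-(1 + (ε : ℂ))) = ((((p : ℕ) : ℝ) ^ (-(1 + ε)) : ℝ) : ℂ) := by
    rw [Complex.ofReal_cpow (Nat.cast_nonneg _)]
    push_cast
    rfl
  have h2 : (1 : DirichletCharacter ℂ 1) ((p : ℕ) : ZMod 1) = 1 := by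
    rw [Subsingleton.elim ((p : ℕ) : ZMod 1) 1, map_one]
  rw [h1, h2]
  ring

/-- the part beyond `z` is small outside a set of small measure -/
theorem far {δ' M : ℝ} (hδ' : 0 < δ') (hδ'1 : δ' ≤ 1) (hM : 0 < M) :
    ∀ᶠ ℓ : ℝ in atTop, ∀ (U H : ℝ), (∀ t ∈ Set.Icc U (U + H), |t| ≤ Real.exp ℓ) →
      ∀ ε : ℝ, Real.exp (-Real.exp (δ' * ℓ / 8)) ≤ ε → ε ≤ 1 / 2 →
      ∀ a : ℕ → ℂ, (∀ p : ℕ, p.Prime → ‖a p‖ ≤ M) →
      (∀ p : ℕ, p.Prime → (p : ℝ) ≤ ℓ ^ (240 / δ') → a p = 0) →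
      volume.real {t | t ∈ Set.Icc U (U + H) ∧ 1 / (4 * ℓ) ≤ ‖PG a (ph (-t)) (1 + (ε : ℂ))‖} ≤
        2 * Real.exp (δ' * ℓ) := by
  filter_upwards [short_PS hδ' hδ'1 hM, eventually_ge_atTop 0] with ℓ hℓ hℓ0
  intro U H hU ε hε0 hε1 a ha haz
  apply meas_le (U := U) (H := H) (fun t ht => ht.1)
  intro J t ht hsep
  apply hℓ J (fun _ => 1) (fun _ => (1 : DirichletCharacter ℂ 1)) t
    ⟨fun _ => one_pos, fun j k hjk _ => hsep j k hjk⟩
    (fun _ => by rw [Nat.cast_one]; exact Real.one_le_exp hℓ0)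
    (fun j => hU _ (ht j).1) (fun _ => ε) (fun _ => hε0) (fun _ => hε1) a ha haz
  intro j
  rw [← PG_ph]
  exact (ht j).2

/-- the measure of the set of large values of a Dirichlet polynomial -/
lemma near {S : Finset ℕ} (hS : ∀ p ∈ S, p.Prime) (b : ℕ → ℂ) (k : ℕ) {U H θ : ℝ} (hH : 0 < H)
    (hθ : 0 < θ) : volume.real {t | t ∈ Set.Icc U (U + H) ∧ θ ≤ ‖∑ p ∈ S, b p * ph (-t) p‖} *
      θ ^ (2 * k) ≤
      H * (k.factorial * (∑ p ∈ S, ‖b p‖ ^ 2) ^ k) + 2 * (∑ p ∈ S, p * ‖b p‖) ^ (2 * k) := by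
  have hcont : Continuous fun t : ℝ => ‖∑ p ∈ S, b p * ph (-t) p‖ ^ (2 * k) := by
    apply Continuous.pow
    apply Continuous.norm
    apply continuous_finsetSum
    intro p hp
    exact continuous_const.mul (continuous_ph (hS p hp).pos)
  set ρ := volume.restrict (Set.Icc U (U + H)) with hρ
  have hint : Integrable (fun t : ℝ => ‖∑ p ∈ S, b p * ph (-t) p‖ ^ (2 * k)) ρ :=
    hcont.continuousOn.integrableOn_compact isCompact_Icc
  have h1 := mul_meas_ge_le_integral_of_nonneg (μ := ρ)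
    (f := fun t : ℝ => ‖∑ p ∈ S, b p * ph (-t) p‖ ^ (2 * k))
    (Eventually.of_forall fun t => by positivity) hint (θ ^ (2 * k))
  have h2 : ∫ t, ‖∑ p ∈ S, b p * ph (-t) p‖ ^ (2 * k) ∂ρ =
      ∫ t in U..(U + H), ‖∑ p ∈ S, b p * ph (-t) p‖ ^ (2 * k) := by
    rw [hρ, integral_Icc_eq_integral_Ioc, ← intervalIntegral.integral_of_le (by linarith)]
  have h3 := moment_t hS b k (U := U) hH.le
  rw [h2] at h1
  refine le_trans ?_ (h1.trans h3)
  rw [mul_comm]
  apply mul_le_mul_of_nonneg_left _ (by positivity)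
  have h4 : ρ.real {t | θ ^ (2 * k) ≤ ‖∑ p ∈ S, b p * ph (-t) p‖ ^ (2 * k)} =
      volume.real ({t | θ ^ (2 * k) ≤ ‖∑ p ∈ S, b p * ph (-t) p‖ ^ (2 * k)} ∩ Set.Icc U (U + H)) := by
    unfold Measure.real
    rw [hρ, Measure.restrict_apply' measurableSet_Icc]
  rw [h4]
  apply measureReal_mono
  · intro t ht
    exact ⟨pow_le_pow_left₀ hθ.le ht.2 _, ht.1⟩
  · exact ne_top_of_le_ne_top (by rw [Real.volume_Icc]; exact ENNReal.ofReal_ne_top)
      (measure_mono Set.inter_subset_right)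

lemma real_split {B B₁ B₂ : Set ℝ} {U H : ℝ} (h1 : B₁ ⊆ Set.Icc U (U + H))
    (h2 : B₂ ⊆ Set.Icc U (U + H)) (h : B ⊆ B₁ ∪ B₂) :
    volume.real B ≤ volume.real B₁ + volume.real B₂ := by
  have hf : ∀ C : Set ℝ, C ⊆ Set.Icc U (U + H) → volume C ≠ ⊤ := fun C hC =>
    ne_top_of_le_ne_top (by rw [Real.volume_Icc]; exact ENNReal.ofReal_ne_top) (measure_mono hC)
  refine (measureReal_mono h ?_).trans (measureReal_union_le _ _)
  exact hf _ (Set.union_subset h1 h2)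

/-- the estimates for the numbers -/
lemma nums {A : ℝ} (hA : 1 ≤ A) {δ : ℝ} (hδ : 0 < δ) (D : ℝ) (hD : 0 ≤ D) :
    ∀ᶠ H : ℝ in atTop, D * ((2 * A * Real.log H) ^ (240 / (δ / (2 * A)))) ^ 2 ≤ H := by
  have hA0 : 0 < 2 * A := by linarith
  set κ := 240 / (δ / (2 * A)) * 2 with hκ
  have h1 := (isLittleO_log_rpow_rpow_atTop κ one_pos)
  have h2 : Tendsto (fun x : ℝ => Real.log x ^ κ / x ^ (1 : ℝ)) atTop (𝓝 0) :=
    h1.tendsto_div_nhds_zero
  have h3 : Tendsto (fun x : ℝ => (D * (2 * A) ^ κ) * (Real.log x ^ κ / x ^ (1 : ℝ))) atTop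
      (𝓝 ((D * (2 * A) ^ κ) * 0)) := h2.const_mul _
  rw [mul_zero] at h3
  filter_upwards [h3.eventually (gt_mem_nhds one_pos), eventually_ge_atTop 1] with x hx hx1
  have hx0 : (0 : ℝ) < x := by linarith
  have hlx : 0 ≤ Real.log x := Real.log_nonneg hx1
  rw [Real.rpow_one, ← mul_div_assoc, div_lt_one hx0] at hx
  have h4 : ((2 * A * Real.log x) ^ (240 / (δ / (2 * A)))) ^ 2 =
      (2 * A) ^ κ * Real.log x ^ κ := by
    rw [← Real.rpow_natCast, ← Real.rpow_mul (by positivity), Real.mul_rpow hA0.le hlx, hκ]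
    norm_num
  rw [h4, ← mul_assoc]
  exact hx.le

/-- **The large primes, in the `t`-aspect.** -/
theorem t_tail {δ A M θ : ℝ} (hδ : 0 < δ) (hδ1 : δ ≤ 1) (hA : 1 ≤ A) (hM : 0 < M) (hθ : 0 < θ)
    {Y : ℕ} (hY : 1 ≤ Y) :
    ∀ᶠ H : ℝ in atTop, ∀ U : ℝ, |U| ≤ H ^ A → ∀ ε : ℝ,
      Real.exp (-H ^ (δ / 8)) ≤ ε → ε ≤ 1 / 2 → ∀ a : ℕ → ℂ,
      (∀ p : ℕ, p.Prime → ‖a p‖ ≤ M) → (∀ p : ℕ, p.Prime → p ≤ Y → a p = 0) →
      (tau U H).real {t | θ ≤ ‖PG a (ph (-t)) (1 + (ε : ℂ))‖} ≤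
        2 * H ^ (δ - 1) + 12 * M ^ 2 / (Y * θ ^ 2) := by
  classical
  set A' : ℝ := 2 * A with hA'
  have hA0 : 0 < A' := by linarith
  set δ' : ℝ := δ / A' with hδ'
  have hδ'0 : 0 < δ' := by positivity
  have hδ'1 : δ' ≤ 1 := by
    rw [hδ', div_le_one hA0]
    linarith
  have hY0 : (0 : ℝ) < Y := by exact_mod_cast (by omega : 0 < Y)
  have hlog : Tendsto (fun x : ℝ => A' * Real.log x) atTop atTop :=
    Real.tendsto_log_atTop.const_mul_atTop hA0
  filter_upwards [hlog.eventually (far hδ'0 hδ'1 hM), nums hA hδ Y (Nat.cast_nonneg _),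
    hlog.eventually (eventually_ge_atTop (1 / (2 * θ))), hlog.eventually (eventually_ge_atTop 1),
    eventually_ge_atTop 2] with H hfar hzH hℓθ hℓ1 hH2
  intro U hU ε hε0 hε1 a ha haY
  set ℓ : ℝ := A' * Real.log H with hℓ
  have hH0 : 0 < H := by linarith
  have hH1 : 1 ≤ H := by linarith
  have hexp : ∀ y : ℝ, Real.exp (y * Real.log H) = H ^ y := by
    intro y
    rw [Real.rpow_def_of_pos hH0, mul_comm]
  have hεpos : 0 < ε := lt_of_lt_of_le (Real.exp_pos _) hε0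
  have hℓ0 : 0 < ℓ := by linarith
  set z : ℝ := ℓ ^ (240 / δ') with hzdef
  have hz0 : 0 ≤ z := Real.rpow_nonneg hℓ0.le _
  have hre : 1 < (1 + (ε : ℂ)).re := by simp; exact hεpos
  have hδℓ : δ' * ℓ = δ * Real.log H := by
    rw [hδ', hℓ]
    field_simp
  -- the splitting
  set b : ℕ → ℂ := fun p => a p * (p : ℂ) ^ (-(1 + (ε : ℂ))) with hb
  have hsplit : ∀ t : ℝ, PG a (ph (-t)) (1 + (ε : ℂ)) =
      ∑ p ∈ TT Y z, b p * ph (-t) p + PG (cut a z) (ph (-t)) (1 + (ε : ℂ)) := by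
    intro t
    rw [PG_split ha haY hz0 (pm_ph t) hre]
    congr 1
    apply sum_congr rfl
    intro p _
    simp only [hb]
    ring
  have hTT : ∀ p ∈ TT Y z, p.Prime := fun p hp => (mem_filter.1 hp).2
  have hbp : ∀ p : ℕ, p.Prime → ‖b p‖ ≤ M * (1 / (p : ℝ)) := by
    intro p hp
    have hp0 : (0 : ℝ) < p := by exact_mod_cast hp.pos
    simp only [hb]
    rw [norm_mul, norm_natCast_cpow_of_pos hp.pos]
    apply mul_le_mul (ha p hp) _ (by positivity) hM.le
    rw [one_div, ← Real.rpow_neg_one]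
    apply Real.rpow_le_rpow_of_exponent_le (by exact_mod_cast hp.one_le)
    simp
    exact hεpos.le
  set B₁ : Set ℝ := {t | t ∈ Set.Icc U (U + H) ∧ θ / 2 ≤ ‖∑ p ∈ TT Y z, b p * ph (-t) p‖} with hB₁
  set B₂ : Set ℝ := {t | t ∈ Set.Icc U (U + H) ∧ 1 / (4 * ℓ) ≤
    ‖PG (cut a z) (ph (-t)) (1 + (ε : ℂ))‖} with hB₂
  have hsub : {t | θ ≤ ‖PG a (ph (-t)) (1 + (ε : ℂ))‖} ∩ Set.Icc U (U + H) ⊆ B₁ ∪ B₂ := by
    intro t ht
    by_cases h1 : θ / 2 ≤ ‖∑ p ∈ TT Y z, b p * ph (-t) p‖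
    · exact Or.inl ⟨ht.2, h1⟩
    · right
      refine ⟨ht.2, ?_⟩
      have h2 : θ ≤ ‖PG a (ph (-t)) (1 + (ε : ℂ))‖ := ht.1
      rw [hsplit] at h2
      have h3 := norm_add_le (∑ p ∈ TT Y z, b p * ph (-t) p) (PG (cut a z) (ph (-t)) (1 + (ε : ℂ)))
      have h7 : 1 / (4 * ℓ) ≤ θ / 2 := by
        rw [div_le_iff₀ (by positivity)] at hℓθ ⊢
        linarith
      linarith
  have h1 : volume.real B₁ ≤ H * (12 * M ^ 2 / (Y * θ ^ 2)) := by
    have h2 := near hTT b 1 (U := U) hH0 (half_pos hθ)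
    rw [mul_one, pow_one, Nat.factorial_one, Nat.cast_one, one_mul] at h2
    have h4 : ∑ p ∈ TT Y z, ‖b p‖ ^ 2 ≤ M ^ 2 / Y := by
      have h5 : ∀ p ∈ TT Y z, ‖b p‖ ^ 2 ≤ M ^ 2 * (1 / (p : ℝ) ^ 2) := by
        intro p hp
        have := pow_le_pow_left₀ (norm_nonneg _) (hbp p (hTT p hp)) 2
        refine this.trans (le_of_eq ?_)
        rw [mul_pow, one_div, one_div, inv_pow]
      refine (sum_le_sum h5).trans ?_
      rw [← mul_sum, div_eq_mul_one_div]
      apply mul_le_mul_of_nonneg_left _ (by positivity)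
      refine le_trans ?_ (sum_sq_le hY ⌊z⌋₊)
      apply sum_le_sum_of_subset_of_nonneg
      · exact filter_subset _ _
      · intro _ _ _
        positivity
    have h4' : ∑ p ∈ TT Y z, (p : ℝ) * ‖b p‖ ≤ M * z := by
      have h5 : ∀ p ∈ TT Y z, (p : ℝ) * ‖b p‖ ≤ M := by
        intro p hp
        have hp' := hTT p hp
        have hp0 : (0 : ℝ) < p := by exact_mod_cast hp'.pos
        calc (p : ℝ) * ‖b p‖ ≤ p * (M * (1 / (p : ℝ))) :=
              mul_le_mul_of_nonneg_left (hbp p hp') hp0.le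
          _ = M := by field_simp
      refine (sum_le_sum h5).trans ?_
      rw [sum_const, nsmul_eq_mul, mul_comm]
      apply mul_le_mul_of_nonneg_left _ hM.le
      unfold TT
      have h6 : (((Ioc Y ⌊z⌋₊).filter Nat.Prime).card : ℝ) ≤ (⌊z⌋₊ : ℝ) := by
        have := card_filter_le (Ioc Y ⌊z⌋₊) Nat.Prime
        rw [Nat.card_Ioc] at this
        exact_mod_cast this.trans (Nat.sub_le _ _)
      exact h6.trans (Nat.floor_le hz0)
    have h7 : M ^ 2 * z ^ 2 ≤ M ^ 2 * (H / Y) := by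
      apply mul_le_mul_of_nonneg_left _ (by positivity)
      rw [le_div_iff₀ hY0, mul_comm]
      exact hzH
    have h8 : (∑ p ∈ TT Y z, (p : ℝ) * ‖b p‖) ^ 2 ≤ M ^ 2 * z ^ 2 := by
      rw [← mul_pow]
      exact pow_le_pow_left₀ (sum_nonneg fun _ _ => by positivity) h4' 2
    have h9 : volume.real B₁ * (θ / 2) ^ 2 ≤ H * (12 * M ^ 2 / (Y * θ ^ 2)) * (θ / 2) ^ 2 := by
      have e1 : H * (12 * M ^ 2 / (Y * θ ^ 2)) * (θ / 2) ^ 2 = 3 * (H * (M ^ 2 / Y)) := by
        field_simp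
        ring
      rw [e1]
      have e2 : M ^ 2 * (H / Y) = H * (M ^ 2 / Y) := by ring
      have h10 := mul_le_mul_of_nonneg_left h4 hH0.le
      rw [e2] at h7
      linarith
    exact le_of_mul_le_mul_right h9 (by positivity)
  have h2 : volume.real B₂ ≤ 2 * H ^ δ := by
    have h3 := hfar U H (fun t ht => by
      rw [hℓ, hexp, hA']
      have h4 : |t| ≤ |U| + H := by
        rw [abs_le]
        have := neg_abs_le U
        have := le_abs_self U
        constructor <;> linarith [ht.1, ht.2]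
      have h5 : H ≤ H ^ A := by
        calc H = H ^ (1 : ℝ) := (Real.rpow_one H).symm
          _ ≤ _ := Real.rpow_le_rpow_of_exponent_le hH1 hA
      have h6 : H ^ (2 * A) = H ^ A * H ^ A := by
        rw [← Real.rpow_add hH0]
        ring_nf
      have h7 : 2 ≤ H ^ A := hH2.trans h5
      nlinarith) ε (by
        have h4 : δ' * ℓ / 8 = δ / 8 * Real.log H := by
          rw [hδℓ]
          ring
        rw [h4, hexp]
        exact hε0) hε1 (cut a z) (norm_cut ha z)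
      (fun p _ hpz => by
        unfold cut
        rw [if_pos hpz])
    rw [hδℓ, hexp] at h3
    exact h3
  have h3 := real_split (B := {t | θ ≤ ‖PG a (ph (-t)) (1 + (ε : ℂ))‖} ∩ Set.Icc U (U + H))
    (fun t ht => ht.1) (fun t ht => ht.1) hsub
  rw [tau_real U hH0]
  have h4 : H⁻¹ * volume.real ({t | θ ≤ ‖PG a (ph (-t)) (1 + (ε : ℂ))‖} ∩ Set.Icc U (U + H)) ≤
      H⁻¹ * (H * (12 * M ^ 2 / (Y * θ ^ 2)) + 2 * H ^ δ) :=
    mul_le_mul_of_nonneg_left (h3.trans (add_le_add h1 h2)) (by positivity)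
  refine h4.trans (le_of_eq ?_)
  rw [Real.rpow_sub hH0, Real.rpow_one]
  field_simp
  ring

end Pool.Agent.H439.TA
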