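import Pool.Agent.H439.TA.Tail
import Pool.Agent.H439.LL.Main

/-!
# Equidistribution of `(p^{-it})` on the torus
-/

set_option autoImplicit false
set_option linter.unusedSectionVars false

namespace Pool.Agent.H439.TA

open Finset Complex ComplexConjugate Filter Topology MeasureTheory UnitAddTorus NumberField
  IsDedekindDomain Polynomial Pool.Agent.TH339.MP Pool.Agent.H439.LS Pool.Agent.H439.SP
  Pool.Agent.H439.LL

/-- Two functionals which nearly agree at many characters of the torus are close on a compact set of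
functions. -/
theorem approx' {d : Type*} [Fintype d] (S : Set C(UnitAddTorus d, ℂ)) (hS : IsCompact S)
    {η : ℝ} (hη : 0 < η) : ∃ (F : Finset (d → ℤ)) (δ₀ : ℝ), 0 < δ₀ ∧
      ∀ A B : C(UnitAddTorus d, ℂ) →ₗ[ℂ] ℂ,
      (∀ G, ‖A G‖ ≤ ‖G‖) → (∀ G, ‖B G‖ ≤ ‖G‖) →
      (∀ m ∈ F, ‖A (mFourier m) - B (mFourier m)‖ ≤ δ₀) → ∀ G ∈ S, ‖A G - B G‖ ≤ η := by
  classical
  obtain ⟨t, ht, hcov⟩ := Metric.totallyBounded_iff.1 hS.totallyBounded (η / 8) (by positivity)
  have h1 : ∀ G : C(UnitAddTorus d, ℂ), ∃ c : (d → ℤ) →₀ ℂ,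
      ‖G - c.sum (fun m z => z • mFourier m)‖ < η / 8 := by
    intro G
    have h2 : G ∈ (Submodule.span ℂ (Set.range <| mFourier (d := d))).topologicalClosure := by
      rw [span_mFourier_closure_eq_top]
      trivial
    obtain ⟨P, hP, hd⟩ := Metric.mem_closure_iff.1 h2 (η / 8) (by positivity)
    obtain ⟨c, hc⟩ := Finsupp.mem_span_range_iff_exists_finsupp.1 hP
    refine ⟨c, ?_⟩
    rw [hc, ← dist_eq_norm]
    exact hd
  choose c hc using h1
  set T : ℝ := 1 + ∑ G ∈ ht.toFinset, ∑ m ∈ (c G).support, ‖c G m‖ with hT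
  have hT0 : 0 < T := by
    have : 0 ≤ ∑ G ∈ ht.toFinset, ∑ m ∈ (c G).support, ‖c G m‖ :=
      sum_nonneg fun _ _ => sum_nonneg fun _ _ => norm_nonneg _
    linarith
  refine ⟨ht.toFinset.biUnion fun G => (c G).support, η / (4 * T), by positivity,
    fun A B hA hB hAB G hG => ?_⟩
  obtain ⟨G', hG't, hG'⟩ := Set.mem_iUnion₂.1 (hcov hG)
  rw [Metric.mem_ball, dist_eq_norm] at hG'
  set P := (c G').sum (fun m z => z • mFourier m) with hP
  have h3 : ‖A P - B P‖ ≤ η / 4 := by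
    rw [hP, Finsupp.sum, map_sum, map_sum, ← sum_sub_distrib]
    have h31 : ∀ m ∈ (c G').support, ‖A (c G' m • mFourier m) - B (c G' m • mFourier m)‖ ≤
        ‖c G' m‖ * (η / (4 * T)) := by
      intro m hm
      rw [map_smul, map_smul, ← smul_sub, norm_smul]
      exact mul_le_mul_of_nonneg_left
        (hAB m (Finset.mem_biUnion.2 ⟨G', ht.mem_toFinset.2 hG't, hm⟩)) (norm_nonneg _)
    refine (norm_sum_le_of_le _ h31).trans ?_
    rw [← sum_mul]
    have h32 : ∑ m ∈ (c G').support, ‖c G' m‖ ≤ T := by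
      have h33 := single_le_sum (f := fun G => ∑ m ∈ (c G).support, ‖c G m‖)
        (fun G _ => sum_nonneg fun _ _ => norm_nonneg _) (ht.mem_toFinset.2 hG't)
      rw [hT]
      linarith
    calc _ ≤ T * (η / (4 * T)) := mul_le_mul_of_nonneg_right h32 (by positivity)
      _ = η / 4 := by field_simp
  have h4 : ‖G - P‖ ≤ η / 4 := by
    have : G - P = (G - G') + (G' - P) := by abel
    rw [this]
    refine (norm_add_le _ _).trans ?_
    have := hc G'
    linarith
  have h5 : A G - B G = (A (G - P) - B (G - P)) + (A P - B P) := by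
    rw [map_sub, map_sub]
    ring
  rw [h5]
  refine (norm_add_le _ _).trans ?_
  have h6 := norm_sub_le (A (G - P)) (B (G - P))
  have := hA (G - P)
  have := hB (G - P)
  linarith

section
variable {K : Type} [Field K] [NumberField K] {N : ℕ}
variable {P : HeightOneSpectrum (𝓞 K) → ℂ[X]} {w : ℝ}

/-- **Comparison of averages of functions of the finite Euler product.** -/
lemma exists_freq' (hP : HW P N w) {Y : ℕ} (S : Finset ℕ) {f : ℂ → ℝ} (hf : Continuous f) {η : ℝ}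
    (hη : 0 < η) : ∃ (F : Finset (DY Y → ℤ)) (δ₀ : ℝ), 0 < δ₀ ∧
      ∀ A B : C(UnitAddTorus (DY Y), ℂ) →ₗ[ℂ] ℂ,
      (∀ G, ‖A G‖ ≤ ‖G‖) → (∀ G, ‖B G‖ ≤ ‖G‖) →
      (∀ m ∈ F, ‖A (mFourier m) - B (mFourier m)‖ ≤ δ₀) →
      ∀ ε : ℝ, 0 ≤ ε → ε ≤ 1 / 2 → ∀ G : C(UnitAddTorus (DY Y), ℂ),
        (∀ u, G u = (f (HS P w S u ε) : ℂ)) → ‖A G - B G‖ ≤ η := by
  set Φ : C(Set.Icc (0 : ℝ) (1 / 2) × UnitAddTorus (DY Y), ℂ) :=
    ⟨fun x => (f (HS P w S x.2 (x.1 : ℝ)) : ℂ),
      Complex.continuous_ofReal.comp (hf.comp (continuous_HS hP S))⟩ with hΦ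
  have hcomp : IsCompact (Set.range Φ.curry) := isCompact_range Φ.curry.continuous
  obtain ⟨F, δ₀, hδ₀, hF⟩ := approx' (Set.range Φ.curry) hcomp hη
  refine ⟨F, δ₀, hδ₀, fun A B hA hB hAB ε h0 h1 G hG => ?_⟩
  apply hF A B hA hB hAB G
  refine ⟨⟨ε, h0, h1⟩, ?_⟩
  ext u
  rw [hG u]
  rfl

end

/-- the point of the torus attached to `t` -/
noncomputable def ut (Y : ℕ) (t : ℝ) : UnitAddTorus (DY Y) :=
  fun i => ((-(t * Real.log (i : ℕ)) / (2 * Real.pi) : ℝ) : UnitAddCircle)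

lemma continuous_ut (Y : ℕ) : Continuous (ut Y) := by
  apply continuous_pi
  intro i
  unfold ut
  apply (AddCircle.continuous_mk' (1 : ℝ)).comp
  fun_prop

lemma zS_ut (Y : ℕ) (t : ℝ) :
    ∀ p ∈ DY Y, zS ((DY Y).filter fun p => p.Coprime 1) (ut Y t) p = ph (-t) p := by
  intro p hp
  have hpp : p.Prime := (mem_filter.1 hp).2
  unfold zS
  rw [dif_pos ⟨hp, mem_filter.2 ⟨hp, Nat.coprime_one_right p⟩⟩]
  unfold ut
  rw [AddCircle.toCircle_apply_mk, Circle.coe_exp, ph_exp t hpp.pos]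
  congr 1
  push_cast
  field_simp

/-- the frequency -/
noncomputable def lam {Y : ℕ} (m : DY Y → ℤ) : ℝ := ∑ i : DY Y, (m i : ℝ) * Real.log (i : ℕ)

lemma mFourier_ut (Y : ℕ) (m : DY Y → ℤ) (t : ℝ) :
    mFourier m (ut Y t) = Complex.exp (-(lam m * t) * I) := by
  change ∏ i : DY Y, fourier (m i) (ut Y t i) = _
  have h1 : ∀ i : DY Y, fourier (m i) (ut Y t i) =
      Complex.exp (-((m i : ℝ) * Real.log (i : ℕ) * t) * I) := by
    intro i
    unfold ut
    rw [fourier_coe_apply]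
    congr 1
    push_cast
    field_simp
  rw [prod_congr rfl fun i _ => h1 i, ← Complex.exp_sum]
  congr 1
  unfold lam
  push_cast
  rw [sum_mul, ← sum_neg_distrib, sum_mul]

lemma log_pp {Y : ℕ} (e : DY Y → ℕ) : Real.log (pp e) = ∑ i : DY Y, (e i : ℝ) * Real.log (i : ℕ) := by
  unfold pp
  push_cast
  rw [Real.log_prod fun i _ => (pow_pos (by exact_mod_cast (prime_DY i).pos) _).ne']
  apply sum_congr rfl
  intro i _
  rw [Real.log_pow]

lemma lam_ne {Y : ℕ} {m : DY Y → ℤ} (hm : m ≠ 0) : lam m ≠ 0 := by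
  intro h
  apply hm
  set a := pp fun i => (-(m i)).toNat with ha
  set b := pp fun i => (m i).toNat with hb
  have h1 : Real.log b - Real.log a = lam m := by
    rw [ha, hb, log_pp, log_pp, ← sum_sub_distrib]
    unfold lam
    apply sum_congr rfl
    intro i _
    rw [← sub_mul]
    congr 1
    have : ((m i).toNat : ℤ) - ((-(m i)).toNat : ℤ) = m i := by omega
    exact_mod_cast this
  rw [h, sub_eq_zero] at h1
  have h2 : (b : ℝ) = a := Real.log_injOn_pos (by
    change (0 : ℝ) < b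
    exact_mod_cast pp_pos _) (by
    change (0 : ℝ) < a
    exact_mod_cast pp_pos _) h1
  have h3 : b = a := by exact_mod_cast h2
  funext i
  have h4 := fact_pp (fun i => (-(m i)).toNat) i
  have h5 := fact_pp (fun i => (m i).toNat) i
  rw [← ha] at h4
  rw [← hb, h3, h4] at h5
  change m i = 0
  omega

lemma integrable_ut (Y : ℕ) (U : ℝ) {H : ℝ} (hH : 0 < H) (G : C(UnitAddTorus (DY Y), ℂ)) :
    Integrable (fun t => G (ut Y t)) (tau U H) := by
  have := prob_tau U hH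
  refine Integrable.of_bound ?_ ‖G‖ ?_
  · exact (G.continuous.comp (continuous_ut Y)).measurable.aestronglyMeasurable
  · exact Eventually.of_forall fun ω => G.norm_coe_le_norm _

/-- the average over `t` -/
noncomputable def At (Y : ℕ) (U : ℝ) {H : ℝ} (hH : 0 < H) : C(UnitAddTorus (DY Y), ℂ) →ₗ[ℂ] ℂ where
  toFun G := ∫ t, G (ut Y t) ∂(tau U H)
  map_add' G G' := by
    simp only [ContinuousMap.add_apply]
    exact integral_add (integrable_ut Y U hH G) (integrable_ut Y U hH G')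
  map_smul' c G := by
    simp only [ContinuousMap.smul_apply, smul_eq_mul, RingHom.id_apply]
    exact integral_const_mul c _

lemma norm_At (Y : ℕ) (U : ℝ) {H : ℝ} (hH : 0 < H) (G : C(UnitAddTorus (DY Y), ℂ)) :
    ‖At Y U hH G‖ ≤ ‖G‖ := by
  have := prob_tau U hH
  change ‖∫ t, G (ut Y t) ∂(tau U H)‖ ≤ ‖G‖
  have := norm_integral_le_of_norm_le_const (μ := tau U H) (f := fun t => G (ut Y t)) (C := ‖G‖)
    (Eventually.of_forall fun ω => G.norm_coe_le_norm _)
  simpa using this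

lemma At_mFourier (Y : ℕ) (U : ℝ) {H : ℝ} (hH : 0 < H) {m : DY Y → ℤ} (hm : m ≠ 0) :
    ‖At Y U hH (mFourier m)‖ ≤ 2 / (H * |lam m|) := by
  change ‖∫ t, mFourier m (ut Y t) ∂(tau U H)‖ ≤ _
  rw [integral_tau U hH]
  simp_rw [mFourier_ut]
  have hl := lam_ne hm
  have h1 := norm_int_exp (l := -lam m) (neg_ne_zero.2 hl) U H
  have h2 : ∀ t : ℝ, Complex.exp (((-lam m : ℝ) : ℂ) * I * t) = Complex.exp (-(lam m * t) * I) := by
    intro t
    congr 1
    push_cast
    ring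
  simp_rw [h2] at h1
  rw [abs_neg] at h1
  rw [norm_smul, norm_inv, Real.norm_of_nonneg hH.le]
  calc _ ≤ H⁻¹ * (2 / |lam m|) := mul_le_mul_of_nonneg_left h1 (by positivity)
    _ = _ := by
      have := abs_pos.2 hl
      field_simp

end Pool.Agent.H439.TA
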