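import Pool.Agent.H439.TA.Equi
import Pool.Agent.H439.QD.Dist

/-!
# The limit law in the `t`-aspect
-/

set_option autoImplicit false
set_option linter.unusedSectionVars false
set_option linter.unusedVariables false

namespace Pool.Agent.H439.TA

open Finset Complex ComplexConjugate Filter Topology MeasureTheory ProbabilityTheory UnitAddTorus
  NumberField IsDedekindDomain Polynomial Pool.Agent.TH339.MP Pool.Agent.H439.LS
  Pool.Agent.H439.SP Pool.Agent.H439.LL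

open scoped NNReal

section
variable {K : Type} [Field K] [NumberField K] {N : ℕ}
variable {P : HeightOneSpectrum (𝓞 K) → ℂ[X]} {w : ℝ}

/-- averages of functions of the Euler product and of the finite Euler product -/
lemma close_meas {Ω : Type} [MeasurableSpace Ω] (μ : Measure Ω) [IsProbabilityMeasure μ]
    {f : ℂ → ℝ} (hf : Continuous f) {D : ℝ} (hD : ∀ z, |f z| ≤ D) {η₁ : ℝ}
    {Y₁ Y₂ : ℕ} {θ : ℝ} (G : Ω → ℕ → ℂ) {ε : ℝ}
    (hclose : ∀ ω, Good P w Y₁ 1 (G ω) ε → Good P w Y₂ θ (G ω) ε →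
      |f (LG P (G ω) (1 + (w : ℂ) / 2 + (ε : ℂ))) -
        f (EP P (G ω) (1 + (w : ℂ) / 2 + (ε : ℂ)) Y₂)| ≤ η₁)
    (hmE : Measurable fun ω => EP P (G ω) (1 + (w : ℂ) / 2 + (ε : ℂ)) (Y₂ : ℝ))
    (hmL : Measurable fun ω => LG P (G ω) (1 + (w : ℂ) / 2 + (ε : ℂ)))
    (h1 : μ.real {ω | ¬ Good P w Y₁ 1 (G ω) ε} ≤ η₁)
    (h2 : μ.real {ω | ¬ Good P w Y₂ θ (G ω) ε} ≤ η₁) :
    |∫ ω, f (EP P (G ω) (1 + (w : ℂ) / 2 + (ε : ℂ)) Y₂) ∂μ -
      ∫ ω, f (LG P (G ω) (1 + (w : ℂ) / 2 + (ε : ℂ))) ∂μ| ≤ η₁ * (1 + 4 * D) := by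
  classical
  have hD0 : 0 ≤ D := (abs_nonneg _).trans (hD 0)
  set s : ℂ := 1 + (w : ℂ) / 2 + (ε : ℂ) with hs
  have hbd : ∀ u : Ω → ℂ, Measurable u → Integrable (fun ω => f (u ω)) μ := by
    intro u hu
    refine Integrable.of_bound (hf.measurable.comp hu).aestronglyMeasurable D ?_
    exact Eventually.of_forall fun ω => hD _
  rw [← integral_sub (hbd _ hmE) (hbd _ hmL)]
  set u : Ω → ℝ := fun ω => f (EP P (G ω) s Y₂) - f (LG P (G ω) s) with hu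
  have hum : Measurable u := (hf.measurable.comp hmE).sub (hf.measurable.comp hmL)
  set E : Set Ω := {ω | η₁ < |u ω|} with hE
  have hEm : MeasurableSet E := measurableSet_lt measurable_const hum.abs
  have hEsub : E ⊆ {ω | ¬ Good P w Y₁ 1 (G ω) ε} ∪ {ω | ¬ Good P w Y₂ θ (G ω) ε} := by
    intro ω hω
    by_contra hcon
    rw [Set.mem_union, not_or] at hcon
    have h3 : Good P w Y₁ 1 (G ω) ε := not_not.1 hcon.1
    have h4 : Good P w Y₂ θ (G ω) ε := not_not.1 hcon.2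
    have h5 := hclose ω h3 h4
    have h6 : η₁ < |u ω| := hω
    rw [abs_sub_comm] at h5
    exact absurd h6 (not_lt.2 h5)
  have hEμ : μ.real E ≤ 2 * η₁ := by
    refine (measureReal_mono hEsub).trans ((measureReal_union_le _ _).trans ?_)
    linarith
  have h7 : ∀ ω, |u ω| ≤ η₁ + E.indicator (fun _ => 2 * D) ω := by
    intro ω
    by_cases hω : ω ∈ E
    · rw [Set.indicator_of_mem hω]
      have h8 : |u ω| ≤ 2 * D := by
        refine (abs_sub _ _).trans ?_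
        linarith [hD (LG P (G ω) s), hD (EP P (G ω) s Y₂)]
      have h9 : 0 ≤ η₁ := le_trans measureReal_nonneg h1
      linarith
    · rw [Set.indicator_of_notMem hω, add_zero]
      exact not_lt.1 hω
  have hintE : Integrable (E.indicator fun _ => 2 * D) μ := (integrable_const _).indicator hEm
  calc |∫ ω, u ω ∂μ| ≤ ∫ ω, |u ω| ∂μ := abs_integral_le_integral_abs
    _ ≤ ∫ ω, (η₁ + E.indicator (fun _ => 2 * D) ω) ∂μ :=
        integral_mono_of_nonneg (Eventually.of_forall fun _ => abs_nonneg _)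
          ((integrable_const _).add hintE) (Eventually.of_forall h7)
    _ = η₁ + μ.real E * (2 * D) := by
        rw [integral_add (integrable_const _) hintE, integral_const, integral_indicator_const _ hEm]
        simp
    _ ≤ η₁ + (2 * η₁) * (2 * D) := by
        have := mul_le_mul_of_nonneg_right hEμ (by positivity : (0 : ℝ) ≤ 2 * D)
        linarith
    _ = η₁ * (1 + 4 * D) := by ring

lemma EP_ph (t : ℝ) (Y : ℕ) (ε : ℝ) :
    HS P w ((DY Y).filter fun p => p.Coprime 1) (ut Y t) ε =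
      EP P (ph (-t)) (1 + (w : ℂ) / 2 + (ε : ℂ)) Y :=
  HS_eq (pm_ph t) (zS_ut Y t) ε

lemma measurable_EPt (hP : HW P N w) (Y : ℕ) {ε : ℝ} (hε : 0 ≤ ε) (hε1 : ε ≤ 1 / 2) :
    Measurable fun t : ℝ => EP P (ph (-t)) (1 + (w : ℂ) / 2 + (ε : ℂ)) (Y : ℝ) := by
  simp_rw [← EP_ph]
  exact ((continuous_HS' hP (Y := Y) _ hε hε1).comp (continuous_ut Y)).measurable

lemma measurable_LGt (hP : HW P N w) {ε : ℝ} (hε : 0 < ε) (hε1 : ε ≤ 1 / 2) :
    Measurable fun t : ℝ => LG P (ph (-t)) (1 + (w : ℂ) / 2 + (ε : ℂ)) := by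
  apply measurable_of_tendsto_metrizable (fun Y => measurable_EPt hP Y hε.le hε1)
  rw [tendsto_pi_nhds]
  intro t
  exact tendsto_EP hP (pm_ph t) hε

/-- **Almost all `t` are good.** -/
lemma good_t (hP : HW P N w) {A c : ℝ} (hA : 1 ≤ A) (hc : 0 < c) (hc8 : c < 1 / 8) {θ η : ℝ}
    (hθ : 0 < θ) (hη : 0 < η) :
    ∀ᶠ Y : ℕ in atTop, ∀ᶠ H : ℝ in atTop, ∀ U : ℝ, |U| ≤ H ^ A →
      ∀ ε : ℝ, Real.exp (-H ^ c) ≤ ε → ε ≤ 1 / 2 →
        (tau U H).real {t | ¬ Good P w Y θ (ph (-t)) ε} ≤ η := by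
  set M : ℝ := (Module.finrank ℚ K : ℝ) * N + 1 with hM
  have hM0 : 0 < M := by positivity
  filter_upwards [ev_small ((Module.finrank ℚ K : ℝ) * N * c₁) (half_pos hθ),
    ev_div (12 * M ^ 2 / (θ / 2) ^ 2) (half_pos hη), eventually_ge_atTop 1] with Y hY1 hY2 hY3
  obtain ⟨a, h1, h2, h3⟩ := good_of_PG hP hY3
  have hpow : ∀ᶠ H : ℝ in atTop, 2 * H ^ (8 * c - 1) ≤ η / 2 := by
    have h4 : Tendsto (fun x : ℝ => 2 * x ^ (-(1 - 8 * c))) atTop (𝓝 (2 * 0)) :=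
      (tendsto_rpow_neg_atTop (by linarith)).const_mul 2
    rw [mul_zero] at h4
    filter_upwards [h4.eventually (gt_mem_nhds (half_pos hη))] with x hx
    rw [show 8 * c - 1 = -(1 - 8 * c) by ring]
    exact hx.le
  filter_upwards [t_tail (δ := 8 * c) (A := A) (M := M) (θ := θ / 2) (by linarith) (by linarith)
    hA hM0 (half_pos hθ) hY3, hpow, eventually_gt_atTop 0] with H hH1 hH2 hH0
  intro U hU ε hε0 hε1
  have hε : 0 < ε := lt_of_lt_of_le (Real.exp_pos _) hε0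
  have := prob_tau U hH0
  have h4 := hH1 U hU ε (by rw [show 8 * c / 8 = c by ring]; exact hε0) hε1 a h1 h2
  have hY0 : (0 : ℝ) < Y := by exact_mod_cast hY3
  have h6 : 12 * M ^ 2 / (Y * (θ / 2) ^ 2) ≤ η / 2 := by
    refine le_trans (le_of_eq ?_) hY2
    field_simp
  refine le_trans (measureReal_mono ?_) (h4.trans (by linarith))
  intro t ht
  change θ / 2 ≤ ‖PG a (ph (-t)) (1 + (ε : ℂ))‖
  by_contra hcon
  rw [not_le] at hcon
  exact ht (h3 _ ε θ (pm_ph t) hε hY1 hcon)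

/-- the torus comparison -/
lemma torus_t (hP : HW P N w) (Y : ℕ) {f : ℂ → ℝ} (hf : Continuous f) {η : ℝ} (hη : 0 < η) :
    ∀ᶠ H : ℝ in atTop, ∀ U ε : ℝ, 0 ≤ ε → ε ≤ 1 / 2 →
      ∀ (Ω : Type) [MeasurableSpace Ω] (μ : Measure Ω) (X : ℕ → Ω → ℂ), Steinhaus μ X →
        |∫ t, f (EP P (ph (-t)) (1 + (w : ℂ) / 2 + (ε : ℂ)) Y) ∂(tau U H) -
          ∫ ω, f (EP P (gX 1 X ω) (1 + (w : ℂ) / 2 + (ε : ℂ)) Y) ∂μ| ≤ η := by
  classical
  set S := (DY Y).filter fun p => p.Coprime 1 with hS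
  obtain ⟨F, δ₀, hδ₀, hF⟩ := exists_freq' hP (Y := Y) S hf hη
  have h1 : ∀ m ∈ F, ∀ᶠ H : ℝ in atTop, m ≠ 0 → 2 / (H * |lam m|) ≤ δ₀ := by
    intro m _
    by_cases hm : m = 0
    · exact Eventually.of_forall fun H h => absurd hm h
    · have hl : 0 < |lam m| := abs_pos.2 (lam_ne hm)
      filter_upwards [eventually_ge_atTop (2 / (δ₀ * |lam m|)), eventually_gt_atTop 0] with H hH hH0
      intro _
      rw [div_le_iff₀ (by positivity)] at hH ⊢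
      nlinarith
  have h2 : ∀ᶠ H : ℝ in atTop, ∀ m ∈ F, m ≠ 0 → 2 / (H * |lam m|) ≤ δ₀ :=
    (Filter.eventually_all_finset F).2 h1
  filter_upwards [h2, eventually_gt_atTop 0] with H hH hH0
  intro U ε hε0 hε1 Ω _ μ X hX
  have hprob := hX.prob
  have hprob' := prob_tau U hH0
  obtain ⟨τ, a1, a2, a3, a4⟩ := hX.angles
  have hcont := continuous_HS' hP (Y := Y) S hε0 hε1
  set s : ℂ := 1 + (w : ℂ) / 2 + (ε : ℂ) with hs
  set G : C(UnitAddTorus (DY Y), ℂ) :=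
    ⟨fun u => (f (HS P w S u ε) : ℂ), Complex.continuous_ofReal.comp (hf.comp hcont)⟩ with hG
  have hmsk : ∀ m : DY Y → ℤ, msk 1 m = m := by
    intro m
    funext i
    unfold msk
    rw [if_pos (Nat.coprime_one_right _)]
  have h3 := hF (At Y U hH0) (AX μ Y 1 τ a1) (norm_At Y U hH0) (norm_AX Y 1 a1) (fun m hm => by
    rw [AX_mFourier Y 1 a1 a2 a3 m, hmsk]
    by_cases h : m = 0
    · rw [if_pos h, h]
      have h4 : At Y U hH0 (mFourier 0) = 1 := by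
        change ∫ t, (mFourier (0 : DY Y → ℤ)) (ut Y t) ∂(tau U H) = 1
        rw [mFourier_zero]
        change ∫ t, (1 : ℂ) ∂(tau U H) = 1
        rw [integral_const]
        simp
      rw [h4]
      simp [hδ₀.le]
    · rw [if_neg h, sub_zero]
      exact (At_mFourier Y U hH0 h).trans (hH m hm h)) ε hε0 hε1 G (fun u => rfl)
  have h5 : At Y U hH0 G = ((∫ t, f (EP P (ph (-t)) s Y) ∂(tau U H) : ℝ) : ℂ) := by
    change ∫ t, G (ut Y t) ∂(tau U H) = _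
    rw [← integral_complex_ofReal]
    congr 1
    funext t
    change (f (HS P w S (ut Y t) ε) : ℂ) = _
    rw [EP_ph]
  have h6 : AX μ Y 1 τ a1 G = ((∫ ω, f (EP P (gX 1 X ω) s Y) ∂μ : ℝ) : ℂ) := by
    change ∫ ω, G (ux Y 1 τ ω) ∂μ = _
    rw [← integral_complex_ofReal]
    congr 1
    funext ω
    change (f (HS P w S (ux Y 1 τ ω) ε) : ℂ) = _
    rw [HS_eq (pm_gX hX 1 ω) (zS_ux Y 1 a4 ω)]
  rw [h5, h6, ← Complex.ofReal_sub, Complex.norm_real, Real.norm_eq_abs] at h3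
  exact h3

/-- **The limit law in the `t`-aspect.** -/
theorem limit_law_t (hP : HW P N w) {A c : ℝ} (hA : 1 ≤ A) (hc : 0 < c) (hc8 : c < 1 / 8)
    {f : ℂ → ℝ} (hf : Continuous f) {D : ℝ} (hD : ∀ z, |f z| ≤ D) {η : ℝ} (hη : 0 < η) :
    ∀ᶠ H : ℝ in atTop, ∀ U : ℝ, |U| ≤ H ^ A → ∀ ε : ℝ, Real.exp (-H ^ c) ≤ ε → ε ≤ 1 / 2 →
      ∀ (Ω : Type) [MeasurableSpace Ω] (μ : Measure Ω) (X : ℕ → Ω → ℂ), Steinhaus μ X →
        |∫ t, f (LG P (ph (-t)) (1 + (w : ℂ) / 2 + (ε : ℂ))) ∂(tau U H) -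
          ∫ ω, f (LG P (gX 1 X ω) (1 + (w : ℂ) / 2 + (ε : ℂ))) ∂μ| ≤ η := by
  have hD0 : 0 ≤ D := (abs_nonneg _).trans (hD 0)
  set η₁ : ℝ := η / (3 * (1 + 4 * D)) with hη₁
  have hη₁0 : 0 < η₁ := by positivity
  have hη₁e : η₁ * (1 + 4 * D) = η / 3 := by
    rw [hη₁]
    field_simp
  obtain ⟨Y₁, hT₁, hX₁⟩ := ((good_t hP hA hc hc8 one_pos hη₁0).and
    (good_X hP one_pos hη₁0)).exists
  obtain ⟨θ, hθ, hclose⟩ := close hP hf hη₁0 Y₁
  obtain ⟨Y₂, hT₂, hX₂⟩ := ((good_t hP hA hc hc8 hθ hη₁0).and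
    (good_X hP hθ hη₁0)).exists
  filter_upwards [hT₁, hT₂, torus_t hP Y₂ hf (by positivity : 0 < η / 3), eventually_gt_atTop 0]
    with H h1 h2 h3 hH0
  intro U hU ε hε0 hε1 Ω _ μ X hX
  have hε : 0 < ε := lt_of_lt_of_le (Real.exp_pos _) hε0
  have hprob := hX.prob
  have hprob' := prob_tau U hH0
  have e1 := close_meas (tau U H) hf hD (fun t => ph (-t))
    (fun t => hclose Y₂ _ ε (pm_ph t) hε.le) (measurable_EPt hP Y₂ hε.le hε1)
    (measurable_LGt hP hε hε1) (h1 U hU ε hε0 hε1) (h2 U hU ε hε0 hε1)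
  have e2 := close_meas μ hf hD (fun ω => gX 1 X ω)
    (fun ω => hclose Y₂ _ ε (pm_gX hX 1 ω) hε.le) (measurable_EP hP hX 1 Y₂ hε.le hε1)
    (measurable_LG hP hX 1 hε hε1) (hX₁ Ω μ X hX 1 ε hε) (hX₂ Ω μ X hX 1 ε hε)
  have e3 := h3 U ε hε.le hε1 Ω μ X hX
  rw [hη₁e] at e1 e2
  rw [abs_sub_comm] at e1
  have f1 := abs_sub_le (∫ t, f (LG P (ph (-t)) (1 + (w : ℂ) / 2 + (ε : ℂ))) ∂(tau U H))
    (∫ t, f (EP P (ph (-t)) (1 + (w : ℂ) / 2 + (ε : ℂ)) Y₂) ∂(tau U H))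
    (∫ ω, f (LG P (gX 1 X ω) (1 + (w : ℂ) / 2 + (ε : ℂ))) ∂μ)
  have f2 := abs_sub_le (∫ t, f (EP P (ph (-t)) (1 + (w : ℂ) / 2 + (ε : ℂ)) Y₂) ∂(tau U H))
    (∫ ω, f (EP P (gX 1 X ω) (1 + (w : ℂ) / 2 + (ε : ℂ)) Y₂) ∂μ)
    (∫ ω, f (LG P (gX 1 X ω) (1 + (w : ℂ) / 2 + (ε : ℂ))) ∂μ)
  linarith

end

end Pool.Agent.H439.TA
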