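import Pool.Agent.H439.LL.Dev

/-!
# Mean values of Dirichlet polynomials over an interval
-/

set_option autoImplicit false

namespace Pool.Agent.H439.TA

open Finset Complex ComplexConjugate Filter Topology MeasureTheory Pool.Agent.H439.LS
  Pool.Agent.H439.SP Pool.Agent.H439.LL

lemma ph_exp (t : ℝ) {n : ℕ} (hn : 0 < n) :
    ph (-t) n = Complex.exp (((-(Real.log n) : ℝ) : ℂ) * I * t) := by
  unfold ph
  have hne : (n : ℂ) ≠ 0 := by exact_mod_cast hn.ne'
  rw [cpow_def_of_ne_zero hne, ← Complex.natCast_log]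
  congr 1
  push_cast
  ring

lemma continuous_ph {n : ℕ} (hn : 0 < n) : Continuous fun t : ℝ => ph (-t) n := by
  simp_rw [ph_exp _ hn]
  fun_prop

lemma norm_int_exp {l : ℝ} (hl : l ≠ 0) (U H : ℝ) :
    ‖∫ t in U..(U + H), Complex.exp ((l : ℂ) * I * t)‖ ≤ 2 / |l| := by
  have hc : (l : ℂ) * I ≠ 0 := mul_ne_zero (by exact_mod_cast hl) I_ne_zero
  rw [integral_exp_mul_complex hc, norm_div, norm_mul, Complex.norm_I, mul_one, Complex.norm_real,
    Real.norm_eq_abs]
  apply div_le_div_of_nonneg_right _ (abs_nonneg l)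
  refine (norm_sub_le _ _).trans ?_
  have h : ∀ t : ℝ, ‖Complex.exp ((l : ℂ) * I * (t : ℂ))‖ = 1 := by
    intro t
    rw [show (l : ℂ) * I * (t : ℂ) = ((l * t : ℝ) : ℂ) * I by push_cast; ring,
      Complex.norm_exp_ofReal_mul_I]
  rw [h, h]
  norm_num

lemma log_sub_ge {m n : ℕ} (hm : 0 < m) (hmn : m < n) : 1 / (n : ℝ) ≤ Real.log n - Real.log m := by
  have hm0 : (0 : ℝ) < m := by exact_mod_cast hm
  have hn0 : (0 : ℝ) < n := by exact_mod_cast hm.trans hmn
  have h1 := Real.log_le_sub_one_of_pos (x := (m : ℝ) / n) (by positivity)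
  rw [Real.log_div hm0.ne' hn0.ne'] at h1
  have h2 : (m : ℝ) / n - 1 ≤ -(1 / (n : ℝ)) := by
    have h3 : (m : ℝ) + 1 ≤ n := by exact_mod_cast hmn
    rw [div_sub_one hn0.ne', ← neg_div, div_le_div_iff_of_pos_right hn0]
    linarith
  linarith

lemma cross {m n : ℕ} (hm : 0 < m) (hn : 0 < n) (hmn : m ≠ n) (U H : ℝ) :
    ‖∫ t in U..(U + H), conj (ph (-t) m) * ph (-t) n‖ ≤ 2 * (m * n) := by
  have hm0 : (0 : ℝ) < m := by exact_mod_cast hm
  have hn0 : (0 : ℝ) < n := by exact_mod_cast hn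
  have hm1 : (1 : ℝ) ≤ m := by exact_mod_cast hm
  have hn1 : (1 : ℝ) ≤ n := by exact_mod_cast hn
  have e : ∀ t : ℝ, conj (ph (-t) m) * ph (-t) n =
      Complex.exp (((Real.log m - Real.log n : ℝ) : ℂ) * I * t) := by
    intro t
    rw [ph_exp t hm, ph_exp t hn, ← Complex.exp_conj, ← Complex.exp_add]
    congr 1
    simp only [map_mul, Complex.conj_I, Complex.conj_ofReal]
    push_cast
    ring
  simp_rw [e]
  have key : 1 / ((m : ℝ) * n) ≤ |Real.log m - Real.log n| := by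
    rcases lt_or_gt_of_ne hmn with h | h
    · have h1 := log_sub_ge hm h
      rw [abs_sub_comm]
      refine le_trans ?_ (h1.trans (le_abs_self _))
      apply one_div_le_one_div_of_le hn0
      nlinarith
    · have h1 := log_sub_ge hn h
      refine le_trans ?_ (h1.trans (le_abs_self _))
      apply one_div_le_one_div_of_le hm0
      nlinarith
  have hpos : 0 < |Real.log m - Real.log n| := lt_of_lt_of_le (by positivity) key
  refine (norm_int_exp (abs_pos.1 hpos) U H).trans ?_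
  rw [div_le_iff₀ hpos]
  rw [div_le_iff₀ (by positivity)] at key
  linarith

/-- **The mean square.** -/
theorem mean_sq_t (S : Finset ℕ) (hS : ∀ n ∈ S, 0 < n) (c : ℕ → ℂ) {U H : ℝ} (hH : 0 ≤ H) :
    ∫ t in U..(U + H), ‖∑ n ∈ S, c n * ph (-t) n‖ ^ 2 ≤
      H * ∑ n ∈ S, ‖c n‖ ^ 2 + 2 * (∑ n ∈ S, n * ‖c n‖) ^ 2 := by
  have hcont : ∀ m ∈ S, ∀ n ∈ S, Continuous fun t : ℝ => conj (ph (-t) m) * ph (-t) n := by
    intro m hm n hn
    exact (Complex.continuous_conj.comp (continuous_ph (hS m hm))).mul (continuous_ph (hS n hn))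
  have h1 : ((∫ t in U..(U + H), ‖∑ n ∈ S, c n * ph (-t) n‖ ^ 2 : ℝ) : ℂ) =
      ∑ m ∈ S, ∑ n ∈ S, conj (c m) * c n * ∫ t in U..(U + H), conj (ph (-t) m) * ph (-t) n := by
    rw [← intervalIntegral.integral_ofReal]
    have h3 : ∀ t : ℝ, ((‖∑ n ∈ S, c n * ph (-t) n‖ ^ 2 : ℝ) : ℂ) =
        ∑ m ∈ S, ∑ n ∈ S, conj (c m) * c n * (conj (ph (-t) m) * ph (-t) n) := by
      intro t
      push_cast
      rw [← conj_mul', map_sum, sum_mul_sum]
      apply sum_congr rfl
      intro p _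
      apply sum_congr rfl
      intro r _
      rw [map_mul]
      ring
    simp_rw [h3]
    rw [intervalIntegral.integral_finsetSum]
    · apply sum_congr rfl
      intro m hm
      rw [intervalIntegral.integral_finsetSum]
      · apply sum_congr rfl
        intro n hn
        rw [intervalIntegral.integral_const_mul]
      · intro n hn
        exact ((hcont m hm n hn).const_mul _).intervalIntegrable _ _
    · intro m hm
      apply Continuous.intervalIntegrable
      apply continuous_finsetSum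
      intro n hn
      exact (hcont m hm n hn).const_mul _
  have h0 : 0 ≤ ∫ t in U..(U + H), ‖∑ n ∈ S, c n * ph (-t) n‖ ^ 2 :=
    intervalIntegral.integral_nonneg (by linarith) fun _ _ => by positivity
  have h2 : ∫ t in U..(U + H), ‖∑ n ∈ S, c n * ph (-t) n‖ ^ 2 ≤
      ∑ m ∈ S, ∑ n ∈ S, ‖c m‖ * ‖c n‖ * (if m = n then H else 2 * (m * n)) := by
    have h3 : ∫ t in U..(U + H), ‖∑ n ∈ S, c n * ph (-t) n‖ ^ 2 =
        ‖((∫ t in U..(U + H), ‖∑ n ∈ S, c n * ph (-t) n‖ ^ 2 : ℝ) : ℂ)‖ := by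
      rw [Complex.norm_real, Real.norm_of_nonneg h0]
    rw [h3, h1]
    refine (norm_sum_le _ _).trans (sum_le_sum fun m hm => ?_)
    refine (norm_sum_le _ _).trans (sum_le_sum fun n hn => ?_)
    rw [norm_mul, norm_mul, Complex.norm_conj]
    apply mul_le_mul_of_nonneg_left _ (by positivity)
    split_ifs with h
    · subst h
      have : ∀ t : ℝ, conj (ph (-t) m) * ph (-t) m = 1 := by
        intro t
        rw [conj_mul', norm_ph _ (hS m hm)]
        norm_num
      simp_rw [this]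
      rw [intervalIntegral.integral_const]
      simp [abs_of_nonneg hH]
    · exact cross (hS m hm) (hS n hn) h U H
  refine h2.trans ?_
  have h3 : ∀ m ∈ S, ∀ n ∈ S, ‖c m‖ * ‖c n‖ * (if m = n then H else 2 * (m * n)) ≤
      (if m = n then H * (‖c m‖ * ‖c n‖) else 0) + 2 * ((m * ‖c m‖) * (n * ‖c n‖)) := by
    intro m _ n _
    split_ifs
    · have : 0 ≤ (m * ‖c m‖) * (n * ‖c n‖) := by positivity
      linarith
    · linarith
  refine (sum_le_sum fun m hm => sum_le_sum fun n hn => h3 m hm n hn).trans (le_of_eq ?_)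
  simp_rw [sum_add_distrib]
  congr 1
  · rw [mul_sum]
    apply sum_congr rfl
    intro p hp
    rw [sum_ite_eq, if_pos hp, sq]
  · rw [sq, sum_mul_sum, mul_sum]
    apply sum_congr rfl
    intro m _
    rw [mul_sum]

/-- the weighted sum of the coefficients -/
theorem DP_l1 {S : Finset ℕ} (c : ℕ → ℂ) (hS : ∀ p ∈ S, p.Prime) (k N : ℕ) :
    ∑ n ∈ range N, n * ‖DP S c k n‖ ≤ (∑ p ∈ S, p * ‖c p‖) ^ k := by
  induction k with
  | zero =>
    rw [pow_zero]
    have : ∀ n ∈ range N, (n : ℝ) * ‖DP S c 0 n‖ = if n = 1 then 1 else 0 := by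
      intro n _
      unfold DP
      split_ifs with h
      · rw [h]; simp
      · simp
    rw [sum_congr rfl this, sum_ite_eq' (range N) 1]
    split_ifs <;> norm_num
  | succ k ih =>
    have h1 : ∀ n ∈ range N, (n : ℝ) * ‖DP S c (k + 1) n‖ ≤
        ∑ p ∈ S.filter (fun p => p ∣ n),
          (fun p m : ℕ => ((p : ℝ) * ‖c p‖) * ((m : ℝ) * ‖DP S c k m‖)) p (n / p) := by
      intro n _
      rw [DP_succ]
      refine (mul_le_mul_of_nonneg_left (norm_sum_le _ _) (Nat.cast_nonneg n)).trans ?_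
      rw [mul_sum]
      apply sum_le_sum
      intro p hp
      rw [mem_filter] at hp
      simp only
      rw [norm_mul]
      have h2 : (n : ℝ) = p * ((n / p : ℕ) : ℝ) := by
        exact_mod_cast (Nat.mul_div_cancel' hp.2).symm
      calc (n : ℝ) * (‖c p‖ * ‖DP S c k (n / p)‖) =
            (p * ((n / p : ℕ) : ℝ)) * (‖c p‖ * ‖DP S c k (n / p)‖) := by rw [← h2]
        _ ≤ _ := le_of_eq (by ring)
    refine (sum_le_sum h1).trans ?_
    refine (sum_mult hS N (fun p m : ℕ => ((p : ℝ) * ‖c p‖) * ((m : ℝ) * ‖DP S c k m‖))).le.trans ?_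
    have h2 : ∀ p ∈ S, ∑ m ∈ (range N).filter (fun m => p * m < N),
        (fun p m : ℕ => ((p : ℝ) * ‖c p‖) * ((m : ℝ) * ‖DP S c k m‖)) p m ≤
        ((p : ℝ) * ‖c p‖) * (∑ p ∈ S, p * ‖c p‖) ^ k := by
      intro p _
      simp only
      rw [← mul_sum]
      apply mul_le_mul_of_nonneg_left _ (by positivity)
      refine le_trans ?_ ih
      exact sum_le_sum_of_subset_of_nonneg (filter_subset _ _) fun _ _ _ => by positivity
    refine (sum_le_sum h2).trans (le_of_eq ?_)
    rw [← sum_mul, pow_succ]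
    ring

lemma DP_zero_of {S : Finset ℕ} {c : ℕ → ℂ} (hS : ∀ p ∈ S, p.Prime) (k : ℕ) : DP S c k 0 = 0 := by
  by_contra h
  have := (DP_support hS (a := 0) (b := S.sup id)
    (fun p hp => ⟨Nat.zero_le _, le_sup (f := id) hp⟩) k 0 h).1
  exact lt_irrefl _ this

/-- **High moments.** -/
theorem moment_t {S : Finset ℕ} (hS : ∀ p ∈ S, p.Prime) (c : ℕ → ℂ) (k : ℕ) {U H : ℝ}
    (hH : 0 ≤ H) :
    ∫ t in U..(U + H), ‖∑ p ∈ S, c p * ph (-t) p‖ ^ (2 * k) ≤
      H * (k.factorial * (∑ p ∈ S, ‖c p‖ ^ 2) ^ k) + 2 * (∑ p ∈ S, p * ‖c p‖) ^ (2 * k) := by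
  set b : ℕ := S.sup id + 1 with hb
  have hb1 : 1 ≤ b := by omega
  have hSb : ∀ p ∈ S, p ≤ b := fun p hp => (le_sup (f := id) hp).trans (Nat.le_succ _)
  set R : Finset ℕ := (range (b ^ k + 1)).filter fun n => 0 < n with hR
  have h1 : ∀ t : ℝ, ‖∑ p ∈ S, c p * ph (-t) p‖ ^ (2 * k) = ‖∑ n ∈ R, DP S c k n * ph (-t) n‖ ^ 2 := by
    intro t
    have h2 := DP_pow (c := c) hS hSb hb1 (g := ph (-t)) (by simp [ph])
      (fun p _ m _ => ph_mul _ _ _) k _ (Nat.lt_succ_self (b ^ k))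
    have h3 : ∑ n ∈ R, DP S c k n * ph (-t) n = ∑ n ∈ range (b ^ k + 1), DP S c k n * ph (-t) n := by
      rw [hR, sum_filter]
      apply sum_congr rfl
      intro n _
      split_ifs with h
      · rfl
      · have : n = 0 := by omega
        rw [this, DP_zero_of hS, zero_mul]
    rw [h3, h2, norm_pow, ← pow_mul, mul_comm]
  simp_rw [h1]
  refine (mean_sq_t R (fun n hn => (mem_filter.1 hn).2) (DP S c k) hH).trans ?_
  apply add_le_add
  · apply mul_le_mul_of_nonneg_left _ hH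
    refine le_trans ?_ (DP_l2 c hS k (b ^ k + 1))
    exact sum_le_sum_of_subset_of_nonneg (filter_subset _ _) fun _ _ _ => by positivity
  · apply mul_le_mul_of_nonneg_left _ (by norm_num)
    rw [mul_comm 2 k, pow_mul]
    apply pow_le_pow_left₀ (sum_nonneg fun _ _ => by positivity)
    refine le_trans ?_ (DP_l1 c hS k (b ^ k + 1))
    exact sum_le_sum_of_subset_of_nonneg (filter_subset _ _) fun _ _ _ => by positivity

end Pool.Agent.H439.TA
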